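import Pool.Agent.Lib_helper94.Inv.Main

/-!
# MP_38cb64_an: almost no ray of invisibility is reflected at convex places only

Let `n ≥ 2`, let `B` be any subset of `ℝⁿ`, let `C 0, C 1, ...` be convex subsets of `B`, and let
`U` be the union of the `C j` and of the set of the points at which `B` is locally convex. The
oriented lines which are rays of invisibility of `B`, with any number of reflections, and all of
whose reflection points lie in `U` form a set of measure zero. So almost every ray of invisibility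
of any body has a reflection at a point at which the body is not locally convex; and a body that
is a union of countably many convex sets is not measure `k`-reflective for any `k`.
-/

set_option autoImplicit false

namespace Pool.Agent.Results.MP_38cb64_an.ConvexMirrors

open Set MeasureTheory
open scoped RealInnerProductSpace

/-- `m` is a unit normal of the mirror `B` at `a`, on the side from which the light comes: to first
order at `a`, the set `B` lies in the half-space `⟪y - a, m⟫ ≤ 0`. (At a smooth boundary point of a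
body the hyperplane through `a` orthogonal to `m` is the tangent hyperplane.) -/
def IsMirrorNormal {n : ℕ} (B : Set (EuclideanSpace ℝ (Fin n))) (a m : EuclideanSpace ℝ (Fin n)) :
    Prop :=
  ‖m‖ = 1 ∧ ∀ ε > 0, ∃ δ > 0, ∀ y ∈ B, ‖y - a‖ < δ → ⟪y - a, m⟫ ≤ ε * ‖y - a‖

/-- The oriented line `x + ℝ v` is a ray of invisibility of `B` with `k ≥ 1` reflections: it is
reflected at the points `a 0, ..., a (k - 1)` of `B`; the successive directions are
`e 0 = v, e 1, ..., e k = v`; the mirror normal at `a i` is `m i`; the length of the segment from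
`a i` to `a (i + 1)` is `t i` times the norm of `v`. The light does not meet `B` elsewhere, and the
last oriented line is the first one. -/
structure InvisibleRay {n : ℕ} (B : Set (EuclideanSpace ℝ (Fin n))) (k : ℕ)
    (x v : EuclideanSpace ℝ (Fin n)) (a e m : ℕ → EuclideanSpace ℝ (Fin n)) (t : ℕ → ℝ)
    (τ τ' : ℝ) : Prop where
  one_le : 1 ≤ k
  ne_zero : v ≠ 0
  first_direction : e 0 = v
  last_direction : e k = v
  mem : ∀ i < k, a i ∈ B
  normal : ∀ i < k, IsMirrorNormal B (a i) (m i)
  side : ∀ i < k, ⟪e i, m i⟫ ≤ 0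
  reflect : ∀ i < k, e (i + 1) = e i - (2 * ⟪e i, m i⟫) • m i
  first_point : a 0 = x + τ • v
  next_point : ∀ i, i + 1 < k → 0 < t i ∧ a (i + 1) = a i + t i • e (i + 1)
  last_point : a (k - 1) = x + τ' • v
  free_before : ∀ s < τ, x + s • v ∉ B
  free_between : ∀ i, i + 1 < k → ∀ s, 0 < s → s < t i → a i + s • e (i + 1) ∉ B
  free_after : ∀ s > 0, a (k - 1) + s • v ∉ B

/-- The oriented line `x + ℝ v` is a ray of invisibility of `B`, with any number of reflections, and
all its reflection points lie in `U`. -/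
def InvisibleVia {n : ℕ} (B U : Set (EuclideanSpace ℝ (Fin n))) (x v : EuclideanSpace ℝ (Fin n)) :
    Prop :=
  ∃ (k : ℕ) (a e m : ℕ → EuclideanSpace ℝ (Fin n)) (t : ℕ → ℝ) (τ τ' : ℝ),
    InvisibleRay B k x v a e m t τ τ' ∧ ∀ i < k, a i ∈ U

/-- On a convex subset the first order condition holds exactly. -/
theorem support {n : ℕ} {B C : Set (EuclideanSpace ℝ (Fin n))} (hC : Convex ℝ C) (hCB : C ⊆ B)
    {a m : EuclideanSpace ℝ (Fin n)} (ha : a ∈ C) (hm : IsMirrorNormal B a m) :
    ∀ y ∈ C, ⟪y - a, m⟫ ≤ 0 := by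
  intro y hy
  by_contra hpos
  push Not at hpos
  have hne : y - a ≠ 0 := by
    intro h0
    rw [h0, inner_zero_left] at hpos
    exact lt_irrefl _ hpos
  have hn : 0 < ‖y - a‖ := norm_pos_iff.mpr hne
  obtain ⟨δ, hδ, h⟩ := hm.2 (⟪y - a, m⟫ / (2 * ‖y - a‖)) (by positivity)
  set s : ℝ := min 1 (δ / (2 * ‖y - a‖)) with hs
  have hs0 : 0 < s := lt_min one_pos (by positivity)
  have hs1 : s ≤ 1 := min_le_left _ _
  have hs2 : s * ‖y - a‖ < δ := by
    have : s ≤ δ / (2 * ‖y - a‖) := min_le_right _ _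
    rw [le_div_iff₀ (by positivity)] at this
    nlinarith
  have hmem : a + s • (y - a) ∈ C := by
    have := hC ha hy (show (0 : ℝ) ≤ 1 - s by linarith) hs0.le (by ring)
    rw [show (1 - s) • a + s • y = a + s • (y - a) by module] at this
    exact this
  have h1 := h _ (hCB hmem) (by
    rw [add_sub_cancel_left, norm_smul, Real.norm_eq_abs, abs_of_pos hs0]
    exact hs2)
  rw [add_sub_cancel_left, inner_smul_left, norm_smul, Real.norm_eq_abs, abs_of_pos hs0,
    conj_trivial] at h1
  have h2 : ⟪y - a, m⟫ / (2 * ‖y - a‖) * (s * ‖y - a‖) = s * ⟪y - a, m⟫ / 2 := by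
    field_simp
  rw [h2] at h1
  nlinarith [mul_pos hs0 hpos]

open Pool.Agent.Lib_helper94.Inv in
theorem mem_core {n : ℕ} {B : Set (EuclideanSpace ℝ (Fin n))}
    {C : ℕ → Set (EuclideanSpace ℝ (Fin n))} (hC : ∀ j, Convex ℝ (C j)) (hCB : ∀ j, C j ⊆ B)
    {x v : EuclideanSpace ℝ (Fin n)} (hx : InvisibleVia B (⋃ j, C j) x v) :
    v ≠ 0 ∧ ∃ (K : ℕ) (j : ℕ → ℕ), x ∈ X (fun i => C (j i)) K v := by
  obtain ⟨k, a, e, m, t, τ, τ', h, hk⟩ := hx
  obtain ⟨K, rfl⟩ : ∃ K, k = K + 1 := ⟨k - 1, by have := h.one_le; omega⟩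
  have he : ∀ i ≤ K + 1, dir v m i = e i := by
    intro i
    induction i with
    | zero => intro _; exact h.first_direction.symm
    | succ i ih =>
      intro hi
      show dir v m i - (2 * ⟪dir v m i, m i⟫) • m i = e (i + 1)
      rw [ih (by omega), h.reflect i (by omega)]
  have ha : ∀ i ≤ K, pt x v m t τ i = a i := by
    intro i
    induction i with
    | zero => intro _; exact h.first_point.symm
    | succ i ih =>
      intro hi
      show pt x v m t τ i + t i • dir v m (i + 1) = a (i + 1)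
      rw [ih (by omega), he (i + 1) (by omega), (h.next_point i (by omega)).2]
  have hj : ∀ i, ∃ j, i ≤ K → a i ∈ C j := by
    intro i
    by_cases hi : i ≤ K
    · obtain ⟨j, hj⟩ := mem_iUnion.mp (hk i (by omega))
      exact ⟨j, fun _ => hj⟩
    · exact ⟨0, fun h => absurd h hi⟩
  choose j hj using hj
  refine ⟨h.ne_zero, K, j, m, t, τ, τ', ?_, ?_, ?_, ?_, ?_, ?_, ?_⟩
  · intro i hi
    exact (h.normal i (by omega)).1
  · intro i hi
    rw [ha i hi]
    exact hj i hi
  · intro i hi y hy
    rw [ha i hi]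
    exact support (hC _) (hCB _) (hj i hi) (h.normal i (by omega)) y hy
  · intro i hi
    rw [he i (by omega)]
    exact h.side i (by omega)
  · rw [he (K + 1) le_rfl]
    exact h.last_direction
  · intro i hi
    exact (h.next_point i (by omega)).1
  · rw [ha K le_rfl]
    exact h.last_point

/-- `B` is locally convex at its point `a`: it meets some closed ball about `a` in a convex set. -/
def LocallyConvexAt {n : ℕ} (B : Set (EuclideanSpace ℝ (Fin n)))
    (a : EuclideanSpace ℝ (Fin n)) : Prop :=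
  a ∈ B ∧ ∃ r > 0, Convex ℝ (B ∩ Metric.closedBall a r)

open Classical in
/-- The points at which `B` is locally convex are covered by countably many convex subsets
of `B`. -/
theorem exists_cover {n : ℕ} (B : Set (EuclideanSpace ℝ (Fin n)))
    (C : ℕ → Set (EuclideanSpace ℝ (Fin n))) (hC : ∀ j, Convex ℝ (C j)) (hCB : ∀ j, C j ⊆ B) :
    ∃ C' : ℕ → Set (EuclideanSpace ℝ (Fin n)), (∀ j, Convex ℝ (C' j)) ∧ (∀ j, C' j ⊆ B) ∧
      (⋃ j, C j) ∪ {a | LocallyConvexAt B a} ⊆ ⋃ j, C' j := by
  let F : ℕ ⊕ (ℕ × ℕ) → Set (EuclideanSpace ℝ (Fin n)) := fun z => z.elim C fun w =>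
    if Convex ℝ (B ∩ Metric.closedBall (TopologicalSpace.denseSeq (EuclideanSpace ℝ (Fin n)) w.1)
      (1 / ((w.2 : ℝ) + 1)))
    then B ∩ Metric.closedBall (TopologicalSpace.denseSeq (EuclideanSpace ℝ (Fin n)) w.1)
      (1 / ((w.2 : ℝ) + 1))
    else ∅
  have hF : ∀ z, Convex ℝ (F z) ∧ F z ⊆ B := by
    rintro (j | w)
    · exact ⟨hC j, hCB j⟩
    · show Convex ℝ (ite _ _ _) ∧ ite _ _ _ ⊆ B
      split_ifs with h
      · exact ⟨h, inter_subset_left⟩
      · exact ⟨convex_empty, empty_subset _⟩
  refine ⟨fun j => F (Denumerable.ofNat _ j), fun j => (hF _).1, fun j => (hF _).2, ?_⟩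
  rintro a (ha | ⟨haB, r, hr, hconv⟩)
  · obtain ⟨j, hj⟩ := mem_iUnion.mp ha
    refine mem_iUnion.mpr ⟨Encodable.encode (Sum.inl j : ℕ ⊕ (ℕ × ℕ)), ?_⟩
    simp only [Denumerable.ofNat_encode]
    exact hj
  · obtain ⟨N, hN⟩ := exists_nat_one_div_lt (show (0 : ℝ) < r / 2 by positivity)
    have hs : (0 : ℝ) < 1 / ((N : ℝ) + 1) := by positivity
    obtain ⟨i, hi⟩ := (TopologicalSpace.denseRange_denseSeq
      (EuclideanSpace ℝ (Fin n))).exists_dist_lt a hs
    refine mem_iUnion.mpr ⟨Encodable.encode (Sum.inr (i, N) : ℕ ⊕ (ℕ × ℕ)), ?_⟩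
    simp only [Denumerable.ofNat_encode]
    have hsub : Metric.closedBall (TopologicalSpace.denseSeq (EuclideanSpace ℝ (Fin n)) i)
        (1 / ((N : ℝ) + 1)) ⊆ Metric.closedBall a r := by
      refine Metric.closedBall_subset_closedBall' ?_
      rw [dist_comm]
      linarith
    have hc : Convex ℝ (B ∩ Metric.closedBall
        (TopologicalSpace.denseSeq (EuclideanSpace ℝ (Fin n)) i) (1 / ((N : ℝ) + 1))) := by
      have h2 := hconv.inter (convex_closedBall
        (TopologicalSpace.denseSeq (EuclideanSpace ℝ (Fin n)) i) (1 / ((N : ℝ) + 1)))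
      rwa [inter_assoc, inter_eq_self_of_subset_right hsub] at h2
    show a ∈ ite _ _ _
    rw [if_pos hc]
    exact ⟨haB, Metric.mem_closedBall.mpr hi.le⟩

theorem InvisibleVia.mono {n : ℕ} {B U V : Set (EuclideanSpace ℝ (Fin n))} (h : U ⊆ V)
    {x v : EuclideanSpace ℝ (Fin n)} (hx : InvisibleVia B U x v) : InvisibleVia B V x v := by
  obtain ⟨k, a, e, m, t, τ, τ', h1, h2⟩ := hx
  exact ⟨k, a, e, m, t, τ, τ', h1, fun i hi => h (h2 i hi)⟩

/-- **Theorem.** Let `n ≥ 2`, let `B` be any subset of `ℝⁿ`, let `C j ⊆ B` be convex sets,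
`j = 0, 1, ...`, and let `U` be the union of the `C j` and of the set of all points at which `B`
is locally convex. For all unit vectors `v` except countably many, the set of the `x` such that the
oriented line `x + ℝ v` is a ray of invisibility of `B` (with any number of reflections) all of
whose reflection points lie in `U` has measure zero; and the set of all `(x, v)` with this property
has measure zero. -/
theorem result (n : ℕ) (hn : 2 ≤ n) (B : Set (EuclideanSpace ℝ (Fin n)))
    (C : ℕ → Set (EuclideanSpace ℝ (Fin n))) (hC : ∀ j, Convex ℝ (C j)) (hCB : ∀ j, C j ⊆ B) :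
    (∃ D : Set (EuclideanSpace ℝ (Fin n)), D.Countable ∧ ∀ v, ‖v‖ = 1 → v ∉ D →
      (volume : Measure (EuclideanSpace ℝ (Fin n)))
        {x | InvisibleVia B ((⋃ j, C j) ∪ {a | LocallyConvexAt B a}) x v} = 0) ∧
    (volume : Measure (EuclideanSpace ℝ (Fin n) × EuclideanSpace ℝ (Fin n)))
      {p | InvisibleVia B ((⋃ j, C j) ∪ {a | LocallyConvexAt B a}) p.1 p.2} = 0 := by
  obtain ⟨C', hC', hCB', hcov⟩ := exists_cover B C hC hCB
  constructor
  · obtain ⟨D, hD, h⟩ := Pool.Agent.Lib_helper94.Inv.core_directions C'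
    exact ⟨D, hD, fun v hv hvD => measure_mono_null
      (fun x hx => (mem_core hC' hCB' (InvisibleVia.mono hcov hx)).2) (h v hv hvD)⟩
  · exact measure_mono_null (fun p hp => mem_core hC' hCB' (InvisibleVia.mono hcov hp))
      (Pool.Agent.Lib_helper94.Inv.core (by simpa using hn) C')

end Pool.Agent.Results.MP_38cb64_an.ConvexMirrors
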