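import Pool.Agent.Lib_helper86.InvC.PathsP

/-!
# MP_38cb64_an: rays of invisibility in dimension at least three

Let `n ≥ 3` and let `B` be any subset of `ℝⁿ`. Almost every ray of invisibility of `B` which is
reflected at smooth points of the boundary only has at least four reflections, and it has a
reflection point which is not umbilic and at which the plane of incidence is neither the plane of
incidence at the preceding nor the one at the next reflection point.
-/

set_option autoImplicit false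

namespace Pool.Agent.Results.MP_38cb64_an.CoplanarReflections

open Set MeasureTheory
open scoped RealInnerProductSpace ContDiff Gradient

/-- `m` is a unit normal of the set `S` at its point `a`: the tangent cone of `S` at `a` is the
hyperplane orthogonal to `m`. (At a smooth boundary point of a body `B` these are, for
`S = frontier B`, the two unit normals of the tangent hyperplane of the boundary.) -/
def IsNormal {n : ℕ} (S : Set (EuclideanSpace ℝ (Fin n))) (a m : EuclideanSpace ℝ (Fin n)) : Prop :=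
  ‖m‖ = 1 ∧ a ∈ S ∧ tangentConeAt ℝ S a = {τ | ⟪m, τ⟫ = 0}

/-- The oriented line `x + ℝ v` is a ray of invisibility of `B` with `k ≥ 1` reflections: it is
reflected at the boundary points `a 0, ..., a (k - 1)`, in the tangent hyperplanes of the boundary,
whose unit normals are the `m i`; the successive directions are `e 0 = v, e 1, ..., e k = v`; from
`a i` the light reaches `a (i + 1)` after the time `t i`. The light does not meet the boundary
elsewhere, never meets `B` again after the last reflection, and the last oriented line is the first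
one. (`v` is any nonzero vector, `|v|` is the speed.) -/
structure InvisibleRay {n : ℕ} (B : Set (EuclideanSpace ℝ (Fin n))) (k : ℕ)
    (x v : EuclideanSpace ℝ (Fin n)) (a e m : ℕ → EuclideanSpace ℝ (Fin n)) (t : ℕ → ℝ)
    (τ τ' : ℝ) : Prop where
  one_le : 1 ≤ k
  ne_zero : v ≠ 0
  first_direction : e 0 = v
  last_direction : e k = v
  normal : ∀ i < k, IsNormal (frontier B) (a i) (m i)
  reflect : ∀ i < k, e (i + 1) = e i - (2 * ⟪e i, m i⟫) • m i
  first_point : a 0 = x + τ • v
  next_point : ∀ i, i + 1 < k → 0 < t i ∧ a (i + 1) = a i + t i • e (i + 1)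
  last_point : a (k - 1) = x + τ' • v
  free_before : ∀ s < τ, x + s • v ∉ frontier B
  free_between : ∀ i, i + 1 < k → ∀ s, 0 < s → s < t i → a i + s • e (i + 1) ∉ frontier B
  free_after : ∀ s > 0, a (k - 1) + s • v ∉ B

/-- In the open set `W` the set `S` is a smooth hypersurface with the equation `f = 0`. -/
structure LocalEq {n : ℕ} (S W : Set (EuclideanSpace ℝ (Fin n)))
    (f : EuclideanSpace ℝ (Fin n) → ℝ) : Prop where
  isOpen : IsOpen W
  smooth : ContDiffOn ℝ ∞ f W
  regular : ∀ y ∈ W, ∇ f y ≠ 0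
  zero : ∀ y ∈ W, (y ∈ S ↔ f y = 0)

/-- the field of unit normals of the level sets of `f` -/
noncomputable def unitNormal {n : ℕ} (f : EuclideanSpace ℝ (Fin n) → ℝ)
    (y : EuclideanSpace ℝ (Fin n)) : EuclideanSpace ℝ (Fin n) :=
  ‖∇ f y‖⁻¹ • ∇ f y

/-- Near its point `a` the set `S` is a `C^∞` hypersurface. -/
def SmoothAt {n : ℕ} (S : Set (EuclideanSpace ℝ (Fin n))) (a : EuclideanSpace ℝ (Fin n)) : Prop :=
  a ∈ S ∧ ∃ W f, a ∈ W ∧ LocalEq S W f

/-- The point `a` is an umbilic point of the hypersurface `S`: the shape operator at `a`, that is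
the restriction of the derivative of the unit normal field to the tangent hyperplane, is a multiple
`κ` of the identity. -/
def Umbilic {n : ℕ} (S : Set (EuclideanSpace ℝ (Fin n))) (a : EuclideanSpace ℝ (Fin n)) : Prop :=
  SmoothAt S a ∧ ∀ W f, a ∈ W → LocalEq S W f →
    ∃ κ : ℝ, ∀ ξ, ⟪∇ f a, ξ⟫ = 0 → fderiv ℝ (unitNormal f) a ξ = κ • ξ

/-- The reflections number `j` (which turns the direction `e j` to `e (j + 1)`) and number `j + 1`
(which turns `e (j + 1)` to `e (j + 2)`) take place in one plane: the three directions are linearly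
dependent. -/
def SamePlane {n : ℕ} (e : ℕ → EuclideanSpace ℝ (Fin n)) (j : ℕ) : Prop :=
  ¬ LinearIndependent ℝ ![e j, e (j + 1), e (j + 2)]

/-- the two forms of the definitions agree -/
lemma localEq_iff {n : ℕ} {S W : Set (EuclideanSpace ℝ (Fin n))}
    {f : EuclideanSpace ℝ (Fin n) → ℝ} : LocalEq S W f ↔ InvC.LocalEq S W f :=
  ⟨fun h => ⟨h.isOpen, h.smooth, h.regular, h.zero⟩,
    fun h => ⟨h.isOpen, h.smooth, h.regular, h.zero⟩⟩

/-- the times of the reflections -/
def Tm (τ : ℝ) (t : ℕ → ℝ) : ℕ → ℝ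
  | 0 => τ
  | i + 1 => Tm τ t i + t i

/-- the unfolded states -/
noncomputable def St {n : ℕ} (x v : EuclideanSpace ℝ (Fin n)) (a e : ℕ → EuclideanSpace ℝ (Fin n))
    (T : ℕ → ℝ) : ℕ → EuclideanSpace ℝ (Fin n) × EuclideanSpace ℝ (Fin n)
  | 0 => (x, v)
  | i + 1 => (a i - T i • e (i + 1), e (i + 1))

lemma pos_St {n : ℕ} {B : Set (EuclideanSpace ℝ (Fin n))} {k : ℕ}
    {x v : EuclideanSpace ℝ (Fin n)} {a e m : ℕ → EuclideanSpace ℝ (Fin n)} {t : ℕ → ℝ}
    {τ τ' : ℝ} (h : InvisibleRay B k x v a e m t τ τ') {i : ℕ} (hi : i < k) :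
    InvC.pos (Tm τ t i) (St x v a e (Tm τ t) i) = a i := by
  rcases i with _ | i
  · simp only [InvC.pos, St, Tm]
    exact h.first_point.symm
  · simp only [InvC.pos, St, Tm]
    rw [(h.next_point i hi).2, add_smul]
    abel

lemma snd_St {n : ℕ} {B : Set (EuclideanSpace ℝ (Fin n))} {k : ℕ}
    {x v : EuclideanSpace ℝ (Fin n)} {a e m : ℕ → EuclideanSpace ℝ (Fin n)} {t : ℕ → ℝ}
    {τ τ' : ℝ} (h : InvisibleRay B k x v a e m t τ τ') (T : ℕ → ℝ) (i : ℕ) :
    (St x v a e T i).2 = e i := by
  rcases i with _ | i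
  · exact h.first_direction.symm
  · rfl

/-- the common generalization -/
lemma main {n : ℕ} (hn : 3 ≤ n) (B : Set (EuclideanSpace ℝ (Fin n))) :
    (volume : Measure (EuclideanSpace ℝ (Fin n) × EuclideanSpace ℝ (Fin n)))
      {p | ∃ (k : ℕ) (a e m : ℕ → EuclideanSpace ℝ (Fin n)) (t : ℕ → ℝ) (τ τ' : ℝ),
        InvisibleRay B k p.1 p.2 a e m t τ τ' ∧ (∀ i < k, SmoothAt (frontier B) (a i)) ∧
        (k = 1 ∨ ∀ i < k, Umbilic (frontier B) (a i) ∨
          ∃ j, j + 1 < k ∧ (i = j ∨ i = j + 1) ∧ SamePlane e j)} = 0 := by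
  have hnull : ∀ k : ℕ, 1 ≤ k → _ := fun k hk =>
    InvC.paths_coplanar_null hn (frontier B) (k := k) hk
  refine measure_mono_null (t := ⋃ k : ℕ, _) ?_
    (measure_iUnion_null fun k => hnull (k + 1) (by omega))
  rintro ⟨x, v⟩ ⟨k, a, e, m, t, τ, τ', h, hs, hU⟩
  obtain ⟨k, rfl⟩ : ∃ k', k = k' + 1 := ⟨k - 1, by have := h.one_le; omega⟩
  refine mem_iUnion.2 ⟨k, h.ne_zero, Tm τ t, St x v a e (Tm τ t), rfl, fun i hi => ⟨?_, ?_⟩,
    ?_, fun i hi => ?_, ?_, τ' - Tm τ t k, ?_⟩
  · refine ⟨m i, ?_, ?_⟩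
    · rw [pos_St h hi]
      exact h.normal i hi
    · rw [pos_St h hi, snd_St h, ← h.reflect i hi]
      rfl
  · rw [pos_St h hi]
    obtain ⟨-, W, f, h1, h2⟩ := hs i hi
    exact ⟨W, f, h1, localEq_iff.1 h2⟩
  · rcases hU with h0 | hU
    · exact Or.inl h0
    right
    intro i hi
    rcases hU i hi with h1 | ⟨j, hj, hij, hd⟩
    · left
      rw [pos_St h hi]
      intro W f h2 h3
      exact h1.2 W f h2 (localEq_iff.2 h3)
    · right
      refine ⟨j, hj, hij, ?_⟩
      rw [snd_St h, snd_St h, snd_St h]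
      exact hd
  · have := (h.next_point i hi).1
    change Tm τ t i < Tm τ t i + t i
    linarith
  · rw [snd_St h]
    exact h.last_direction
  · change a k - Tm τ t k • e (k + 1) = x + (τ' - Tm τ t k) • v
    have h1 := h.last_point
    rw [Nat.add_sub_cancel] at h1
    rw [h1, h.last_direction, sub_smul]
    abel

/-- three vectors in a plane are dependent -/
lemma samePlane_of_mem {n : ℕ} {e : ℕ → EuclideanSpace ℝ (Fin n)} {j : ℕ}
    {P : Submodule ℝ (EuclideanSpace ℝ (Fin n))} (hP : Module.finrank ℝ P ≤ 2) (h0 : e j ∈ P)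
    (h1 : e (j + 1) ∈ P) (h2 : e (j + 2) ∈ P) : SamePlane e j := by
  intro hli
  have h3 := finrank_span_eq_card hli
  rw [Fintype.card_fin] at h3
  have h4 : Submodule.span ℝ (Set.range ![e j, e (j + 1), e (j + 2)]) ≤ P := by
    rw [Submodule.span_le]
    rintro _ ⟨i, rfl⟩
    fin_cases i
    · exact h0
    · exact h1
    · exact h2
  have h5 := Submodule.finrank_mono h4
  omega

/-- **Theorem.** Let `n ≥ 3`, let `B` be any subset of `ℝⁿ`. The oriented lines which are rays of
invisibility of `B`, reflected at smooth points of the boundary only, such that the number of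
reflections is at most three, or every reflection point is umbilic or has the same plane of
incidence as the preceding or as the next reflection point, form a set of measure zero. -/
theorem result (n : ℕ) (hn : 3 ≤ n) (B : Set (EuclideanSpace ℝ (Fin n))) :
    (volume : Measure (EuclideanSpace ℝ (Fin n) × EuclideanSpace ℝ (Fin n)))
      {p | ∃ (k : ℕ) (a e m : ℕ → EuclideanSpace ℝ (Fin n)) (t : ℕ → ℝ) (τ τ' : ℝ),
        InvisibleRay B k p.1 p.2 a e m t τ τ' ∧ (∀ i < k, SmoothAt (frontier B) (a i)) ∧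
        (k ≤ 3 ∨ ∀ i < k, Umbilic (frontier B) (a i) ∨
          ∃ j, j + 1 < k ∧ (i = j ∨ i = j + 1) ∧ SamePlane e j)} = 0 := by
  refine measure_mono_null ?_ (main hn B)
  rintro ⟨x, v⟩ ⟨k, a, e, m, t, τ, τ', h, hs, hk | hU⟩
  swap
  · exact ⟨k, a, e, m, t, τ, τ', h, hs, Or.inr hU⟩
  refine ⟨k, a, e, m, t, τ, τ', h, hs, ?_⟩
  have hk1 := h.one_le
  have hk' : k = 1 ∨ k = 2 ∨ k = 3 := by omega
  rcases hk' with rfl | rfl | rfl
  · exact Or.inl rfl
  · right
    intro i hi
    right
    refine ⟨0, by omega, by omega, ?_⟩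
    refine samePlane_of_mem (P := Submodule.span ℝ (Set.range ![e 0, e 1])) ?_ ?_ ?_ ?_
    · exact (finrank_range_le_card _).trans (by simp)
    · exact Submodule.subset_span ⟨0, rfl⟩
    · exact Submodule.subset_span ⟨1, rfl⟩
    · have h1 : e 2 = e 0 := by rw [h.last_direction, h.first_direction]
      rw [h1]
      exact Submodule.subset_span ⟨0, rfl⟩
  · right
    -- the directions `e 0`, `e 1`, `e 2` are dependent
    have h1 : a 2 = a 0 + t 0 • e 1 + t 1 • e 2 := by
      rw [(h.next_point 1 (by omega)).2, (h.next_point 0 (by omega)).2]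
    have h2 : a 2 = x + τ' • v := h.last_point
    have h3 : t 1 • e 2 = (τ' - τ) • e 0 - t 0 • e 1 := by
      have hv : v = e 0 := h.first_direction.symm
      have h0 : a 0 = x + τ • v := h.first_point
      rw [h2, h0, hv] at h1
      have h4 : t 1 • e 2 = (x + τ • e 0 + t 0 • e 1 + t 1 • e 2) - x - τ • e 0 - t 0 • e 1 := by
        abel
      rw [h4, ← h1, sub_smul]
      abel
    have ht1 : t 1 ≠ 0 := (h.next_point 1 (by omega)).1.ne'
    have h5 : e 2 = (t 1)⁻¹ • ((τ' - τ) • e 0 - t 0 • e 1) := by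
      rw [← h3, smul_smul, inv_mul_cancel₀ ht1, one_smul]
    set P := Submodule.span ℝ (Set.range ![e 0, e 1]) with hP
    have hP2 : Module.finrank ℝ P ≤ 2 := (finrank_range_le_card _).trans (by simp)
    have m0 : e 0 ∈ P := Submodule.subset_span ⟨0, rfl⟩
    have m1 : e 1 ∈ P := Submodule.subset_span ⟨1, rfl⟩
    have m2 : e 2 ∈ P := by
      rw [h5]
      exact P.smul_mem _ (P.sub_mem (P.smul_mem _ m0) (P.smul_mem _ m1))
    have m3 : e 3 ∈ P := by
      have h6 : e 3 = e 0 := by rw [h.last_direction, h.first_direction]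
      rw [h6]
      exact m0
    intro i hi
    right
    rcases Nat.lt_or_ge i 2 with h7 | h7
    · exact ⟨0, by omega, by omega, samePlane_of_mem hP2 m0 m1 m2⟩
    · exact ⟨1, by omega, by omega, samePlane_of_mem hP2 m1 m2 m3⟩

end Pool.Agent.Results.MP_38cb64_an.CoplanarReflections
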