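import Pool.Agent.Lib_helper86.Inv.Cover

/-!
# MP_38cb64_an: rays of invisibility and spherical mirrors

Let `n ≥ 2` and let `B` be any subset of `ℝⁿ`. Almost every ray of invisibility of `B`, with any
number of reflections, is reflected at some point near which the boundary of `B` is not covered by
finitely many spheres and hyperplanes. In particular no body whose boundary is covered by finitely
many spheres and hyperplanes is measure `k`-reflective, for any `k`.
-/

set_option autoImplicit false

namespace Pool.Agent.Results.MP_38cb64_an.SphericalMirrors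

open Set MeasureTheory
open scoped RealInnerProductSpace

/-- `m` is a unit normal of the set `S` at its point `a`: the tangent cone of `S` at `a` is the
hyperplane orthogonal to `m`. (At a smooth boundary point of a body `B` these are, for
`S = frontier B`, the two unit normals of the tangent hyperplane of the boundary.) -/
def IsNormal {n : ℕ} (S : Set (EuclideanSpace ℝ (Fin n))) (a m : EuclideanSpace ℝ (Fin n)) : Prop :=
  ‖m‖ = 1 ∧ a ∈ S ∧ tangentConeAt ℝ S a = {τ | ⟪m, τ⟫ = 0}

/-- The oriented line `x + ℝ v` is a ray of invisibility of `B` with `k ≥ 1` reflections: it is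
reflected at the boundary points `a 0, ..., a (k - 1)`, in the tangent hyperplanes of the boundary,
whose unit normals are the `m i`; the successive directions are `e 0 = v, e 1, ..., e k = v`; from
`a i` the light reaches `a (i + 1)` after the time `t i`. The light does not meet the boundary
elsewhere, never meets `B` again after the last reflection, and the last oriented line is the first
one. (`v` is any nonzero vector, `|v|` is the speed.) -/
structure InvisibleRay {n : ℕ} (B : Set (EuclideanSpace ℝ (Fin n))) (k : ℕ)
    (x v : EuclideanSpace ℝ (Fin n)) (a e m : ℕ → EuclideanSpace ℝ (Fin n)) (t : ℕ → ℝ)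
    (τ τ' : ℝ) : Prop where
  one_le : 1 ≤ k
  ne_zero : v ≠ 0
  first_direction : e 0 = v
  last_direction : e k = v
  normal : ∀ i < k, IsNormal (frontier B) (a i) (m i)
  reflect : ∀ i < k, e (i + 1) = e i - (2 * ⟪e i, m i⟫) • m i
  first_point : a 0 = x + τ • v
  next_point : ∀ i, i + 1 < k → 0 < t i ∧ a (i + 1) = a i + t i • e (i + 1)
  last_point : a (k - 1) = x + τ' • v
  free_before : ∀ s < τ, x + s • v ∉ frontier B
  free_between : ∀ i, i + 1 < k → ∀ s, 0 < s → s < t i → a i + s • e (i + 1) ∉ frontier B
  free_after : ∀ s > 0, a (k - 1) + s • v ∉ B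

/-- The oriented line `x + ℝ v` is a ray of invisibility of `B`, with any number `k ≥ 1` of
reflections, and all its reflection points lie in `U`. -/
def InvisibleVia {n : ℕ} (B U : Set (EuclideanSpace ℝ (Fin n))) (x v : EuclideanSpace ℝ (Fin n)) :
    Prop :=
  ∃ (k : ℕ) (a e m : ℕ → EuclideanSpace ℝ (Fin n)) (t : ℕ → ℝ) (τ τ' : ℝ),
    InvisibleRay B k x v a e m t τ τ' ∧ ∀ i < k, a i ∈ U

/-- a sphere or a hyperplane of `ℝⁿ` -/
def IsSphereOrPlane {n : ℕ} (M : Set (EuclideanSpace ℝ (Fin n))) : Prop :=
  (∃ (c : EuclideanSpace ℝ (Fin n)) (r : ℝ), 0 < r ∧ M = Metric.sphere c r) ∨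
    ∃ (ν : EuclideanSpace ℝ (Fin n)) (h : ℝ), ν ≠ 0 ∧ M = {y | ⟪ν, y⟫ = h}

/-- near `a` the boundary of `B` is covered by finitely many spheres and hyperplanes -/
def SphericalAt {n : ℕ} (B : Set (EuclideanSpace ℝ (Fin n))) (a : EuclideanSpace ℝ (Fin n)) :
    Prop :=
  ∃ ρ > 0, ∃ T : Set (Set (EuclideanSpace ℝ (Fin n))), T.Finite ∧ (∀ M ∈ T, IsSphereOrPlane M) ∧
    frontier B ∩ Metric.ball a ρ ⊆ ⋃₀ T

/-- **Theorem.** Let `n ≥ 2` and let `B` be any subset of `ℝⁿ`. The oriented lines (given by a point
and a nonzero velocity) which are rays of invisibility of `B`, with any number of reflections, all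
of whose reflection points are points near which the boundary of `B` is covered by finitely many
spheres and hyperplanes, form a set of measure zero. -/
theorem result (n : ℕ) (hn : 2 ≤ n) (B : Set (EuclideanSpace ℝ (Fin n))) :
    (volume : Measure (EuclideanSpace ℝ (Fin n) × EuclideanSpace ℝ (Fin n)))
      {p | InvisibleVia B {a | SphericalAt B a} p.1 p.2} = 0 := by
  refine measure_mono_null ?_ (Inv38.closed_null hn (frontier B))
  rintro ⟨x, v⟩ ⟨k, a, e, m, t, τ, τ', h, hU⟩
  refine ⟨k, h.one_le, h.ne_zero, a, e, m, t, τ, τ', h.first_direction, h.last_direction,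
    fun i hi => ⟨h.normal i hi, Inv38.covAt_of (hU i hi), h.reflect i hi⟩, h.first_point,
    h.next_point, h.last_point⟩

end Pool.Agent.Results.MP_38cb64_an.SphericalMirrors
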