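import Pool.Agent.Lib_helper86.InvC.Paths

/-!
# MP_38cb64_an: rays of invisibility and umbilic points

Let `n ≥ 2` and let `B` be any subset of `ℝⁿ`. Almost every ray of invisibility of `B`, with any
number of reflections, has a reflection point which is not an umbilic point of the boundary (if
`n = 2`: at which the derivative of the curvature of the boundary is not zero).
-/

set_option autoImplicit false

namespace Pool.Agent.Results.MP_38cb64_an.UmbilicMirrors

open Set MeasureTheory
open scoped RealInnerProductSpace ContDiff Gradient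

/-- `m` is a unit normal of the set `S` at its point `a`: the tangent cone of `S` at `a` is the
hyperplane orthogonal to `m`. (At a smooth boundary point of a body `B` these are, for
`S = frontier B`, the two unit normals of the tangent hyperplane of the boundary.) -/
def IsNormal {n : ℕ} (S : Set (EuclideanSpace ℝ (Fin n))) (a m : EuclideanSpace ℝ (Fin n)) : Prop :=
  ‖m‖ = 1 ∧ a ∈ S ∧ tangentConeAt ℝ S a = {τ | ⟪m, τ⟫ = 0}

/-- The oriented line `x + ℝ v` is a ray of invisibility of `B` with `k ≥ 1` reflections: it is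
reflected at the boundary points `a 0, ..., a (k - 1)`, in the tangent hyperplanes of the boundary,
whose unit normals are the `m i`; the successive directions are `e 0 = v, e 1, ..., e k = v`; from
`a i` the light reaches `a (i + 1)` after the time `t i`. The light does not meet the boundary
elsewhere, never meets `B` again after the last reflection, and the last oriented line is the first
one. (`v` is any nonzero vector, `|v|` is the speed.) -/
structure InvisibleRay {n : ℕ} (B : Set (EuclideanSpace ℝ (Fin n))) (k : ℕ)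
    (x v : EuclideanSpace ℝ (Fin n)) (a e m : ℕ → EuclideanSpace ℝ (Fin n)) (t : ℕ → ℝ)
    (τ τ' : ℝ) : Prop where
  one_le : 1 ≤ k
  ne_zero : v ≠ 0
  first_direction : e 0 = v
  last_direction : e k = v
  normal : ∀ i < k, IsNormal (frontier B) (a i) (m i)
  reflect : ∀ i < k, e (i + 1) = e i - (2 * ⟪e i, m i⟫) • m i
  first_point : a 0 = x + τ • v
  next_point : ∀ i, i + 1 < k → 0 < t i ∧ a (i + 1) = a i + t i • e (i + 1)
  last_point : a (k - 1) = x + τ' • v
  free_before : ∀ s < τ, x + s • v ∉ frontier B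
  free_between : ∀ i, i + 1 < k → ∀ s, 0 < s → s < t i → a i + s • e (i + 1) ∉ frontier B
  free_after : ∀ s > 0, a (k - 1) + s • v ∉ B

/-- The oriented line `x + ℝ v` is a ray of invisibility of `B`, with any number of reflections, and
all its reflection points lie in `U`. -/
def InvisibleVia {n : ℕ} (B U : Set (EuclideanSpace ℝ (Fin n))) (x v : EuclideanSpace ℝ (Fin n)) :
    Prop :=
  ∃ (k : ℕ) (a e m : ℕ → EuclideanSpace ℝ (Fin n)) (t : ℕ → ℝ) (τ τ' : ℝ),
    InvisibleRay B k x v a e m t τ τ' ∧ ∀ i < k, a i ∈ U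

/-- In the open set `W` the set `S` is a smooth hypersurface with the equation `f = 0`. -/
structure LocalEq {n : ℕ} (S W : Set (EuclideanSpace ℝ (Fin n)))
    (f : EuclideanSpace ℝ (Fin n) → ℝ) : Prop where
  isOpen : IsOpen W
  smooth : ContDiffOn ℝ ∞ f W
  regular : ∀ y ∈ W, ∇ f y ≠ 0
  zero : ∀ y ∈ W, (y ∈ S ↔ f y = 0)

/-- the field of unit normals of the level sets of `f` -/
noncomputable def unitNormal {n : ℕ} (f : EuclideanSpace ℝ (Fin n) → ℝ)
    (y : EuclideanSpace ℝ (Fin n)) : EuclideanSpace ℝ (Fin n) :=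
  ‖∇ f y‖⁻¹ • ∇ f y

/-- the divergence of the field of unit normals; on the level set of `f` through `y` this is
`n - 1` times the mean curvature, so for `n = 2` it is the curvature -/
noncomputable def divNormal {n : ℕ} (f : EuclideanSpace ℝ (Fin n) → ℝ)
    (y : EuclideanSpace ℝ (Fin n)) : ℝ :=
  ∑ i, (fderiv ℝ (unitNormal f) y (EuclideanSpace.single i 1)) i

/-- Near its point `a` the set `S` is a `C^∞` hypersurface, and `a` is an umbilic point of `S`: the
shape operator at `a`, that is the restriction of the derivative of the unit normal field to the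
tangent hyperplane, is a multiple `κ` of the identity. For `n = 2`, where this always holds, the
derivative of the curvature of the curve `S` is required to be zero at `a`. -/
def Umbilic {n : ℕ} (S : Set (EuclideanSpace ℝ (Fin n))) (a : EuclideanSpace ℝ (Fin n)) : Prop :=
  a ∈ S ∧ (∃ W f, a ∈ W ∧ LocalEq S W f) ∧ ∀ W f, a ∈ W → LocalEq S W f →
    (∃ κ : ℝ, ∀ ξ, ⟪∇ f a, ξ⟫ = 0 → fderiv ℝ (unitNormal f) a ξ = κ • ξ) ∧
    (n = 2 → ∀ ξ, ⟪∇ f a, ξ⟫ = 0 → fderiv ℝ (divNormal f) a ξ = 0)

/-- the two forms of the definitions agree -/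
lemma localEq_iff {n : ℕ} {S W : Set (EuclideanSpace ℝ (Fin n))}
    {f : EuclideanSpace ℝ (Fin n) → ℝ} : LocalEq S W f ↔ InvC.LocalEq S W f :=
  ⟨fun h => ⟨h.isOpen, h.smooth, h.regular, h.zero⟩,
    fun h => ⟨h.isOpen, h.smooth, h.regular, h.zero⟩⟩

lemma umbilic_iff {n : ℕ} {S : Set (EuclideanSpace ℝ (Fin n))} {a : EuclideanSpace ℝ (Fin n)} :
    Umbilic S a ↔ InvC.Umbilic S a := by
  constructor
  · rintro ⟨h1, ⟨W, f, h2, h3⟩, h4⟩
    exact ⟨h1, ⟨W, f, h2, localEq_iff.1 h3⟩, fun W f h5 h6 => h4 W f h5 (localEq_iff.2 h6)⟩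
  · rintro ⟨h1, ⟨W, f, h2, h3⟩, h4⟩
    exact ⟨h1, ⟨W, f, h2, localEq_iff.2 h3⟩, fun W f h5 h6 => h4 W f h5 (localEq_iff.1 h6)⟩

/-- the times of the reflections -/
def Tm (τ : ℝ) (t : ℕ → ℝ) : ℕ → ℝ
  | 0 => τ
  | i + 1 => Tm τ t i + t i

/-- the unfolded states -/
noncomputable def St {n : ℕ} (x v : EuclideanSpace ℝ (Fin n)) (a e : ℕ → EuclideanSpace ℝ (Fin n))
    (T : ℕ → ℝ) : ℕ → EuclideanSpace ℝ (Fin n) × EuclideanSpace ℝ (Fin n)
  | 0 => (x, v)
  | i + 1 => (a i - T i • e (i + 1), e (i + 1))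

lemma pos_St {n : ℕ} {B : Set (EuclideanSpace ℝ (Fin n))} {k : ℕ}
    {x v : EuclideanSpace ℝ (Fin n)} {a e m : ℕ → EuclideanSpace ℝ (Fin n)} {t : ℕ → ℝ}
    {τ τ' : ℝ} (h : InvisibleRay B k x v a e m t τ τ') {i : ℕ} (hi : i < k) :
    InvC.pos (Tm τ t i) (St x v a e (Tm τ t) i) = a i := by
  rcases i with _ | i
  · simp only [InvC.pos, St, Tm]
    exact h.first_point.symm
  · simp only [InvC.pos, St, Tm]
    rw [(h.next_point i hi).2, add_smul]
    abel

lemma snd_St {n : ℕ} {B : Set (EuclideanSpace ℝ (Fin n))} {k : ℕ}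
    {x v : EuclideanSpace ℝ (Fin n)} {a e m : ℕ → EuclideanSpace ℝ (Fin n)} {t : ℕ → ℝ}
    {τ τ' : ℝ} (h : InvisibleRay B k x v a e m t τ τ') (T : ℕ → ℝ) (i : ℕ) :
    (St x v a e T i).2 = e i := by
  rcases i with _ | i
  · exact h.first_direction.symm
  · rfl

/-- **Theorem.** Let `n ≥ 2`, let `B` be any subset of `ℝⁿ`. The oriented lines which are rays of
invisibility of `B`, with any number of reflections, all of whose reflection points are umbilic
points of the boundary (for `n = 2`: points at which the curvature of the boundary has derivative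
zero), form a set of measure zero. -/
theorem result (n : ℕ) (hn : 2 ≤ n) (B : Set (EuclideanSpace ℝ (Fin n))) :
    (volume : Measure (EuclideanSpace ℝ (Fin n) × EuclideanSpace ℝ (Fin n)))
        {p | InvisibleVia B {a | Umbilic (frontier B) a} p.1 p.2} = 0 := by
  have hnull : ∀ k : ℕ, 1 ≤ k → _ := fun k hk => InvC.paths_null hn (frontier B) (k := k) hk
  refine measure_mono_null (t := ⋃ k : ℕ, _) ?_
    (measure_iUnion_null fun k => hnull (k + 1) (by omega))
  rintro ⟨x, v⟩ ⟨k, a, e, m, t, τ, τ', h, hU⟩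
  obtain ⟨k, rfl⟩ : ∃ k', k = k' + 1 := ⟨k - 1, by have := h.one_le; omega⟩
  refine mem_iUnion.2 ⟨k, h.ne_zero, Tm τ t, St x v a e (Tm τ t), rfl, fun i hi => ⟨?_, ?_⟩,
    fun i hi => ?_, ?_, τ' - Tm τ t k, ?_⟩
  · refine ⟨m i, ?_, ?_⟩
    · rw [pos_St h hi]
      exact h.normal i hi
    · rw [pos_St h hi, snd_St h, ← h.reflect i hi]
      rfl
  · rw [pos_St h hi]
    exact umbilic_iff.1 (hU i hi)
  · have := (h.next_point i hi).1
    change Tm τ t i < Tm τ t i + t i
    linarith
  · rw [snd_St h]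
    exact h.last_direction
  · change a k - Tm τ t k • e (k + 1) = x + (τ' - Tm τ t k) • v
    have h1 := h.last_point
    rw [Nat.add_sub_cancel] at h1
    rw [h1, h.last_direction, sub_smul]
    abel

end Pool.Agent.Results.MP_38cb64_an.UmbilicMirrors
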